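import Pool.Agent.H45Littlewood.Measure

/-!
# MP_0aa2e9_nt: the Hausdorff dimension of the uniform Littlewood exceptional set

We prove `dim_H Θ ≥ 2/3` (and the same with the threshold `1/188` replaced by `1/30`, the value
`1/30` included).
-/

open Filter Topology
open scoped ENNReal NNReal

namespace Pool.Agent.Results.MP_0aa2e9_nt.DimTheta

/-- `‖x‖`, the distance from `x` to the nearest integer -/
noncomputable def distInt (x : ℝ) : ℝ := |x - round x|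

/-- `m_Q(ξ, ζ)`, the minimum of `‖qξ‖‖qζ‖` over `q = 1, …, Q` -/
noncomputable def mQ (ξ ζ : ℝ) (Q : ℕ) : ℝ :=
  sInf ((fun q : ℕ => distInt (q * ξ) * distInt (q * ζ)) '' Set.Icc 1 Q)

/-- `F(ξ, ζ) = limsup_{Q → ∞} Q m_Q(ξ, ζ)` -/
noncomputable def F (ξ ζ : ℝ) : EReal :=
  limsup (fun Q : ℕ => (((Q : ℝ) * mQ ξ ζ Q : ℝ) : EReal)) atTop

/-- the set `Θ` of the pairs `(ξ, ζ)` with `F(ξ, ζ) > 1/188`, in the Euclidean plane -/
def Theta : Set (EuclideanSpace ℝ (Fin 2)) :=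
  {p | ((1 / 188 : ℝ) : EReal) < F (p 0) (p 1)}

/-- sanity check: for `Q ≥ 1` the number `mQ ξ ζ Q` is the minimum -/
theorem mQ_isLeast (ξ ζ : ℝ) {Q : ℕ} (hQ : 1 ≤ Q) :
    IsLeast ((fun q : ℕ => distInt (q * ξ) * distInt (q * ζ)) '' Set.Icc 1 Q) (mQ ξ ζ Q) := by
  have hfin : ((fun q : ℕ => distInt (q * ξ) * distInt (q * ζ)) '' Set.Icc 1 Q).Finite :=
    (Set.finite_Icc 1 Q).image _
  have hne : ((fun q : ℕ => distInt (q * ξ) * distInt (q * ζ)) '' Set.Icc 1 Q).Nonempty :=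
    ⟨_, ⟨1, ⟨le_rfl, hQ⟩, rfl⟩⟩
  exact ⟨hne.csInf_mem hfin, fun x hx => csInf_le hfin.bddBelow hx⟩

theorem F_ge {ξ ζ : ℝ} (h : ∀ k : ℕ, ∃ N, k ≤ N ∧ 2 ≤ N ∧ H45Littlewood.BadAt N ξ ζ) :
    ((1 / 30 : ℝ) : EReal) ≤ F ξ ζ := by
  have htend : Tendsto (fun Q : ℕ => (((1 / 30 : ℝ) * (Q / (Q + 1) : ℝ) : ℝ) : EReal)) atTop
      (𝓝 ((1 / 30 : ℝ) : EReal)) := by
    have h1 : Tendsto (fun Q : ℕ => ((Q : ℝ) / (Q + 1) : ℝ)) atTop (𝓝 1) :=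
      tendsto_natCast_div_add_atTop 1
    have h2 := h1.const_mul (1 / 30 : ℝ)
    rw [mul_one] at h2
    exact (continuous_coe_real_ereal.tendsto _).comp h2
  refine le_of_forall_lt fun c hc => ?_
  obtain ⟨d, hcd, hd⟩ := exists_between hc
  refine lt_of_lt_of_le hcd ?_
  refine le_limsup_of_frequently_le ?_
  have hev : ∀ᶠ Q : ℕ in atTop, d < (((1 / 30 : ℝ) * (Q / (Q + 1) : ℝ) : ℝ) : EReal) :=
    htend.eventually (lt_mem_nhds hd)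
  refine Frequently.mono (Frequently.and_eventually (frequently_atTop.2 ?_) hev)
    (p := fun Q : ℕ => (((1 / 30 : ℝ) * (Q / (Q + 1) : ℝ) : ℝ) : EReal) ≤
      (((Q : ℝ) * mQ ξ ζ Q : ℝ) : EReal) ∧ d < (((1 / 30 : ℝ) * (Q / (Q + 1) : ℝ) : ℝ) : EReal)) ?_
  · intro k
    obtain ⟨N, hk, h2, hN⟩ := h (k + 1)
    obtain ⟨Q, rfl⟩ : ∃ Q, N = Q + 1 := ⟨N - 1, by omega⟩
    refine ⟨Q, by omega, ?_⟩
    rw [EReal.coe_le_coe_iff]
    have hQ1 : 1 ≤ Q := by omega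
    obtain ⟨⟨q, ⟨hq1, hqQ⟩, hq⟩, -⟩ := mQ_isLeast ξ ζ hQ1
    have h3 := hN q hq1 (by omega)
    rw [← hq]
    simp only [distInt]
    have hQ0 : (0 : ℝ) ≤ Q := by positivity
    calc (1 / 30 : ℝ) * (Q / (Q + 1)) = Q * ((1 / 30 : ℝ) / ((Q + 1 : ℕ) : ℝ)) := by
          push_cast
          ring
      _ ≤ _ := mul_le_mul_of_nonneg_left h3 hQ0
  · rintro Q ⟨h1, h2⟩
    exact h2.le.trans h1

theorem dim_aux : (2 / 3 : ℝ≥0∞) ≤
    dimH {p : EuclideanSpace ℝ (Fin 2) | ((1 / 30 : ℝ) : EReal) ≤ F (p 0) (p 1)} := by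
  obtain ⟨S, hS, hdim⟩ := H45Littlewood.exists_cantor
  set A : Set (EuclideanSpace ℝ (Fin 2)) := {p | ((1 / 30 : ℝ) : EReal) ≤ F (p 0) (p 1)} with hA
  have hsub : Prod.fst '' S ⊆ (EuclideanSpace.proj (0 : Fin 2) : EuclideanSpace ℝ (Fin 2) →L[ℝ] ℝ) '' A := by
    rintro _ ⟨p, hp, rfl⟩
    refine ⟨!₂[p.1, p.2], ?_, ?_⟩
    · rw [hA, Set.mem_ofPred_eq]
      have := F_ge (hS p hp)
      simpa using this
    · simp
  have h1 := dimH_mono hsub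
  have h2 := (EuclideanSpace.proj (0 : Fin 2) : EuclideanSpace ℝ (Fin 2) →L[ℝ] ℝ).lipschitz.dimH_image_le A
  exact hdim.trans (h1.trans h2)

/-- **Theorem.** `dim_H Θ ≥ 2/3`. Moreover the set of the pairs with `F(ξ, ζ) ≥ 1/30` already has
Hausdorff dimension at least `2/3`. -/
theorem result : (2 / 3 : ℝ≥0∞) ≤ dimH Theta ∧
    (2 / 3 : ℝ≥0∞) ≤
      dimH {p : EuclideanSpace ℝ (Fin 2) | ((1 / 30 : ℝ) : EReal) ≤ F (p 0) (p 1)} := by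
  refine ⟨dim_aux.trans (dimH_mono ?_), dim_aux⟩
  intro p hp
  rw [Set.mem_ofPred_eq] at hp
  rw [Theta, Set.mem_ofPred_eq]
  refine lt_of_lt_of_le ?_ hp
  rw [EReal.coe_lt_coe_iff]
  norm_num

end Pool.Agent.Results.MP_0aa2e9_nt.DimTheta
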